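import Pool.Agent.H52.V.S8.H332R2.PIT.Coeff
import Mathlib.NumberTheory.LSeries.Dirichlet
import Mathlib.NumberTheory.LSeries.Deriv
import Mathlib.NumberTheory.LSeries.Convolution

set_option autoImplicit false

open NumberField IsDedekindDomain Pool.Agent.H921R2.TatePole Finset

namespace H332.PIT

section
variable {K : Type*} [Field K] [NumberField K]

lemma deg_le (v : HeightOneSpectrum (𝓞 K)) : deg v ≤ Module.finrank ℚ K := by
  have hdvd : v.asIdeal ∣ Ideal.span {(((below v : ℕ) : 𝓞 K))} := by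
    rw [Ideal.dvd_iff_le, Ideal.span_singleton_le_iff_mem]
    exact (nm_eq v).2.2
  have h2 : Ideal.absNorm v.asIdeal ∣ Ideal.absNorm (Ideal.span {(((below v : ℕ) : 𝓞 K))}) :=
    map_dvd Ideal.absNorm hdvd
  rw [Ideal.absNorm_span_natCast, RingOfIntegers.rank] at h2
  have h1 : Ideal.absNorm v.asIdeal = (below v : ℕ) ^ deg v := (nm_eq v).1
  rw [h1] at h2
  exact (Nat.pow_dvd_pow_iff_le_right (below v).prop.one_lt).mp h2

lemma sum_pow_le (v : HeightOneSpectrum (𝓞 K)) (n : ℕ) :
    ∑ k ∈ Icc 1 n, (if nm v ^ k = n then Real.log (nm v) else 0) ≤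
      if (below v : ℕ) = n.minFac then
        (Module.finrank ℚ K : ℝ) * ArithmeticFunction.vonMangoldt n else 0 := by
  have hd0 : (0 : ℝ) ≤ (Module.finrank ℚ K : ℝ) * ArithmeticFunction.vonMangoldt n :=
    mul_nonneg (Nat.cast_nonneg _) ArithmeticFunction.vonMangoldt_nonneg
  by_cases h : ∃ k ∈ Icc 1 n, nm v ^ k = n
  · obtain ⟨k0, hk0, hk⟩ := h
    have hinj : ∀ k, nm v ^ k = n ↔ k = k0 := by
      intro k
      constructor
      · intro h
        exact Nat.pow_right_injective (two_le_nm v) (by simp only; rw [h, hk])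
      · rintro rfl; exact hk
    simp_rw [hinj]
    rw [sum_ite_eq', if_pos hk0]
    obtain ⟨h1, h2, _⟩ := nm_eq v
    have hk1 := (mem_Icc.mp hk0).1
    have hn : n = (below v : ℕ) ^ (deg v * k0) := by rw [← hk, h1, pow_mul]
    have hdk : deg v * k0 ≠ 0 := by positivity
    have hmf : n.minFac = (below v : ℕ) := by
      rw [hn]; exact (below v).prop.pow_minFac hdk
    rw [if_pos hmf.symm]
    have hL : ArithmeticFunction.vonMangoldt n = Real.log (below v : ℕ) := by
      rw [hn, ArithmeticFunction.vonMangoldt_apply_pow hdk,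
        ArithmeticFunction.vonMangoldt_apply_prime (below v).prop]
    rw [hL, h1]
    push_cast
    rw [Real.log_pow]
    refine mul_le_mul_of_nonneg_right (by exact_mod_cast deg_le v) ?_
    exact Real.log_nonneg (by exact_mod_cast (below v).prop.one_lt.le)
  · push Not at h
    rw [sum_eq_zero fun k hk => if_neg (h k hk)]
    split_ifs
    · exact hd0
    · exact le_rfl

lemma LamK_le (n : ℕ) :
    LamK K n ≤ (Module.finrank ℚ K : ℝ) ^ 2 * ArithmeticFunction.vonMangoldt n := by
  classical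
  have hd0 : (0 : ℝ) ≤ (Module.finrank ℚ K : ℝ) * ArithmeticFunction.vonMangoldt n :=
    mul_nonneg (Nat.cast_nonneg _) ArithmeticFunction.vonMangoldt_nonneg
  unfold LamK
  refine (sum_le_sum fun v _ => sum_pow_le v n).trans ?_
  rw [← sum_filter, sum_const, nsmul_eq_mul]
  by_cases hn : n = 1
  · subst hn
    simp
  have hq := Nat.minFac_prime hn
  have h1 : ((prLE K n).filter fun v => (below v : ℕ) = n.minFac).card ≤ Module.finrank ℚ K := by
    refine card_above ⟨n.minFac, hq⟩ _ fun v hv => ?_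
    exact Subtype.ext (mem_filter.mp hv).2
  rw [sq, mul_assoc]
  exact mul_le_mul_of_nonneg_right (by exact_mod_cast h1) hd0

lemma LamK_prime (p : Nat.Primes) : LamK K p = (R K p : ℝ) * Real.log (p : ℕ) := by
  classical
  unfold LamK
  have h1 : ∀ v ∈ prLE K (p : ℕ), ∑ k ∈ Icc 1 (p : ℕ),
      (if nm v ^ k = (p : ℕ) then Real.log (nm v) else 0) =
      if nm v = (p : ℕ) then Real.log (p : ℕ) else 0 := by
    intro v _
    have h2 : ∀ k, (if nm v ^ k = (p : ℕ) then Real.log (nm v) else 0) =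
        if k = 1 then (if nm v = (p : ℕ) then Real.log (p : ℕ) else 0) else 0 := by
      intro k
      by_cases h3 : nm v ^ k = (p : ℕ)
      · obtain ⟨h4, h5⟩ := p.prop.pow_eq_iff.mp h3
        rw [if_pos h3, if_pos h5, if_pos h4, h4]
      · rw [if_neg h3]
        by_cases hk : k = 1
        · rw [if_pos hk, if_neg]
          intro h
          exact h3 (by rw [hk, pow_one, h])
        · rw [if_neg hk]
    simp_rw [h2]
    rw [sum_ite_eq', if_pos]
    exact mem_Icc.mpr ⟨le_rfl, p.prop.one_lt.le⟩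
  rw [sum_congr rfl h1, ← sum_filter, sum_const, nsmul_eq_mul]
  congr 2
  unfold R
  rw [← card_map (Function.Embedding.subtype _)]
  congr 1
  ext v
  rw [mem_filter, mem_prLE, mem_map]
  constructor
  · rintro ⟨_, h3⟩
    obtain ⟨h1, h2, _⟩ := nm_eq v
    rw [h3] at h1
    have h4 := (p.prop.pow_eq_iff).mp h1.symm
    exact ⟨⟨v, Subtype.ext h4.1⟩, mem_filter.mpr ⟨mem_univ _, h4.2⟩, rfl⟩
  · rintro ⟨⟨u, hu⟩, h3, rfl⟩
    rw [mem_filter] at h3
    obtain ⟨h1, _, _⟩ := nm_eq u
    simp only [Function.Embedding.subtype_apply]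
    have h4 : nm u = (p : ℕ) := by
      have h5 : deg u = 1 := h3.2
      rw [h1, h5, hu, pow_one]
    exact ⟨h4.le, h4⟩

variable (K) in
/-- the Dirichlet series of `Λ_K` -/
noncomputable def LL (s : ℂ) : ℂ := LSeries (fun n => (LamK K n : ℂ)) s

lemma LamK_summable {s : ℂ} (hs : 1 < s.re) : LSeriesSummable (fun n => (LamK K n : ℂ)) s := by
  have h := ArithmeticFunction.LSeriesSummable_vonMangoldt hs
  refine Summable.of_norm_bounded (g := fun n =>
    (Module.finrank ℚ K : ℝ) ^ 2 * ‖LSeries.term (fun n => (ArithmeticFunction.vonMangoldt n : ℂ)) s n‖)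
    (h.norm.mul_left _) fun n => ?_
  rcases eq_or_ne n 0 with rfl | hn
  · simp
  · rw [LSeries.term_of_ne_zero hn, LSeries.term_of_ne_zero hn, norm_div, norm_div,
      Complex.norm_real, Complex.norm_real, Real.norm_of_nonneg (LamK_nonneg n),
      Real.norm_of_nonneg ArithmeticFunction.vonMangoldt_nonneg, ← mul_div_assoc]
    exact div_le_div_of_nonneg_right (LamK_le n) (norm_nonneg _)

lemma aK_summable {s : ℂ} (hs : 1 < s.re) : LSeriesSummable (fun n => (aK K n : ℂ)) s := by
  have h := ZK_summable (K := K) hs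
  refine Summable.of_norm_bounded (g := fun n : ℕ =>
    if n = 0 then 0 else aK K n * (n : ℝ) ^ (-s.re)) h fun n => ?_
  rcases eq_or_ne n 0 with rfl | hn
  · simp
  · rw [LSeries.term_of_ne_zero hn, if_neg hn, norm_div,
      Complex.norm_real, Real.norm_of_nonneg (aK_nonneg n),
      Complex.norm_natCast_cpow_of_pos (Nat.pos_of_ne_zero hn), Real.rpow_neg (by positivity),
      div_eq_mul_inv]

lemma dedekindZeta_eq (s : ℂ) : dedekindZeta K s = LSeries (fun n => (aK K n : ℂ)) s := by
  unfold dedekindZeta aK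
  rfl

lemma absc_aK : LSeries.abscissaOfAbsConv (fun n => (aK K n : ℂ)) ≤ 1 := by
  refine LSeries.abscissaOfAbsConv_le_of_forall_lt_LSeriesSummable (x := 1) fun y hy => ?_
  exact aK_summable (by simpa using hy)

lemma absc_LamK : LSeries.abscissaOfAbsConv (fun n => (LamK K n : ℂ)) ≤ 1 := by
  refine LSeries.abscissaOfAbsConv_le_of_forall_lt_LSeriesSummable (x := 1) fun y hy => ?_
  exact LamK_summable (by simpa using hy)

lemma one_lt_re {f : ℕ → ℂ} (h : LSeries.abscissaOfAbsConv f ≤ 1) {s : ℂ} (hs : 1 < s.re) :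
    LSeries.abscissaOfAbsConv f < s.re :=
  lt_of_le_of_lt h (by exact_mod_cast hs)

/-- the differential equation `ζ_K' = - L(Λ_K) ζ_K` -/
theorem deriv_zeta {s : ℂ} (hs : 1 < s.re) :
    deriv (dedekindZeta K) s = - (LL K s * dedekindZeta K s) := by
  have h1 : dedekindZeta K = LSeries (fun n => (aK K n : ℂ)) := funext dedekindZeta_eq
  rw [h1, LSeries_deriv (one_lt_re absc_aK hs)]
  congr 1
  unfold LL
  rw [← LSeries_convolution' (LamK_summable hs) (aK_summable hs)]
  refine LSeries_congr (fun {n} hn => ?_) s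
  rw [LSeries.convolution_def]
  unfold LSeries.logMul
  have h2 := conv_id (K := K) hn
  have h3 : Complex.log (n : ℂ) = ((Real.log n : ℝ) : ℂ) := (Complex.natCast_log).symm
  rw [h3, ← Complex.ofReal_mul, h2]
  push_cast
  rfl

lemma zeta_diffAt {s : ℂ} (hs : 1 < s.re) : DifferentiableAt ℂ (dedekindZeta K) s := by
  have h1 : dedekindZeta K = LSeries (fun n => (aK K n : ℂ)) := funext dedekindZeta_eq
  rw [h1]
  exact (LSeries_hasDerivAt (one_lt_re absc_aK hs)).differentiableAt

lemma LL_diffAt {s : ℂ} (hs : 1 < s.re) : DifferentiableAt ℂ (LL K) s := by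
  have h1 : LL K = LSeries (fun n => (LamK K n : ℂ)) := rfl
  rw [h1]
  exact (LSeries_hasDerivAt (one_lt_re absc_LamK hs)).differentiableAt

end

end H332.PIT
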